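import Pool.Agent.W_7d29a1_Z.Tie

/-!
STORM Z (MP_7d29a1_pr), leaf INN, 5.2 (helper99): the sum of the second differences of the zones of an interval, on a near tie at the rows
`J`: all the zones whose rows do not meet `J` are independent of the near tie, the other ones (`ex`) are bounded.
-/

namespace Pool.Agent.W_7d29a1_Z99

open MeasureTheory ProbabilityTheory Filter Topology Finset
open Pool.Agent.W_7d29a1_F Pool.Agent.W_7d29a1_X Pool.Agent.W_7d29a1_G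
open Pool.Agent.W_7d29a1_Z
open scoped ENNReal

variable {μ : Measure ℝ}

theorem Db_rows (t τ : ℕ) (I : Finset ℕ) (s : ℤ) {η η' : Env} (b : ℕ) (a : ℤ) (X : ℕ → ℤ)
    (h : ∀ q : Pt, (za t τ b : ℤ) < q.1 → q.1 ≤ zb t τ b → η q = η' q) : Db μ t τ I s η b a X = Db μ t τ I s η' b a X := by
  unfold Db fb
  rw [fk_rows _ _ _ h, fk_rows _ _ _ h, fk_rows _ _ _ h]

theorem measurable_Db (t τ : ℕ) (I : Finset ℕ) (s : ℤ) (b : ℕ) (a : ℤ) (X : ℕ → ℤ) :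
    Measurable fun η : Env => Db μ t τ I s η b a X := by
  unfold Db fb
  exact ((measurable_fk _ _ _ _ _).add (measurable_fk _ _ _ _ _)).sub ((measurable_fk _ _ _ _ _).const_mul 2)

theorem ms_sum (t τ : ℕ) (I : Finset ℕ) (s : ℤ) (g : Finset ℕ) (x : ℝ) :
    Ms fun η S => x < |∑ b ∈ g, Db μ t τ I s η b 0 (pos S)| := by
  intro S
  exact measurableSet_lt measurable_const (Finset.measurable_fun_sum _ fun b _ => measurable_Db (μ := μ) t τ I s b 0 (pos S)).abs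

theorem off_sum (t τ : ℕ) (I : Finset ℕ) (s : ℤ) (g J : Finset ℕ) (x : ℝ)
    (hJ : ∀ i ∈ J, ∀ b ∈ g, i ≤ za t τ b ∨ zb t τ b < i) :
    OffRows J fun η S => x < |∑ b ∈ g, Db μ t τ I s η b 0 (pos S)| := by
  intro η η' S h
  have e : ∀ b ∈ g, Db μ t τ I s η b 0 (pos S) = Db μ t τ I s η' b 0 (pos S) := by
    intro b hb
    refine Db_rows t τ I s b 0 (pos S) fun q h1 h2 => h q ?_
    rintro ⟨h3, h4⟩
    have h5 := hJ _ h4 b hb
    omega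
  show (x < |∑ b ∈ g, Db μ t τ I s η b 0 (pos S)|) ↔ (x < |∑ b ∈ g, Db μ t τ I s η' b 0 (pos S)|)
  rw [Finset.sum_congr rfl e]

/-- **The absorption inequality.** `ex`: the zones which may meet the rows `J`. -/
theorem dlx [IsProbabilityMeasure μ] (hem : Pool.Agent.W_7d29a1_h47.EM μ) (hnd : Pool.Agent.W_7d29a1_h47.Nondeg μ) :
    ∀ ε : ℝ, 0 < ε → ∃ c : ℝ, 0 < c ∧ ∃ L₀ : ℕ, ∀ L : ℕ, L₀ ≤ L → ∀ N : ℕ, N ≤ L → ∀ y : ℤ, 0 ≤ y → y ≤ N →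
      ∀ (t τ : ℕ) (I : Finset ℕ) (s : ℤ) (g ex : Finset ℕ) (H j₀ : ℕ) (J : Finset ℕ), J.Nonempty → (∀ i ∈ J, 1 ≤ i ∧ i < N) →
      j₀ ≤ N → (∀ i ∈ J, ∀ b ∈ g \ ex, i ≤ za t τ b ∨ zb t τ b < i) → ∀ gr w : ℕ, 1 ≤ gr → 1 ≤ w → w ≤ L →
      ∀ M : ℝ, 1 ≤ M → ∀ (D₀ : ℝ) (Bad : Env → Finset ℕ → Prop), (∀ η, ∀ S ∈ (range N).powerset, pos S N = y → ¬ Bad η S →
        |∑ b ∈ g ∩ ex, Db μ t τ I s η b 0 (pos S)| ≤ D₀) → ∀ x : ℝ,
      P1 μ N y (fun η S => x < |∑ b ∈ g, Db μ t τ I s η b 0 (pos S)| ∧ NTW μ N H j₀ J gr w M η S) ≤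
        ENNReal.ofReal ((L : ℝ) ^ ε * M * ((w : ℝ) / gr + 1) * Real.sqrt ((w : ℝ) / J.card)) *
          (P1 μ N y (fun η S => x - 2 * D₀ < |∑ b ∈ g, Db μ t τ I s η b 0 (pos S)|) + P1 μ N y Bad) +
          (P1 μ N y Bad + ENNReal.ofReal (Real.exp (-(L : ℝ) ^ c))) := by
  intro ε hε
  obtain ⟨c, hc, L₀, hL⟩ := tieW (μ := μ) hem hnd ε hε
  refine ⟨c, hc, L₀, ?_⟩
  intro L hL₀ N hN y hy0 hyN t τ I s g ex H j₀ J hJ hJN hj₀ hJg gr w hgr hw1 hwL M hM D₀ Bad hBad x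
  have hsplit : ∀ η S, ∑ b ∈ g, Db μ t τ I s η b 0 (pos S) =
      ∑ b ∈ g \ ex, Db μ t τ I s η b 0 (pos S) + ∑ b ∈ g ∩ ex, Db μ t τ I s η b 0 (pos S) := by
    intro η S
    rw [← Finset.sum_sdiff (Finset.inter_subset_left : g ∩ ex ⊆ g), Finset.sdiff_inter_self_left]
  have h1 : P1 μ N y (fun η S => x < |∑ b ∈ g, Db μ t τ I s η b 0 (pos S)| ∧ NTW μ N H j₀ J gr w M η S) ≤
      P1 μ N y (fun η S => x - D₀ < |∑ b ∈ g \ ex, Db μ t τ I s η b 0 (pos S)| ∧ NTW μ N H j₀ J gr w M η S) +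
        P1 μ N y Bad := by
    refine (P1_mono' ?_).trans (P1_or _ _)
    rintro η S hS hSy ⟨h2, h3⟩
    by_cases hb : Bad η S
    · exact Or.inr hb
    · left
      refine ⟨?_, h3⟩
      have h4 := hBad η S hS hSy hb
      rw [hsplit] at h2
      have h5 := abs_add_le (∑ b ∈ g \ ex, Db μ t τ I s η b 0 (pos S)) (∑ b ∈ g ∩ ex, Db μ t τ I s η b 0 (pos S))
      linarith
  have h2 := hL L hL₀ N hN y hy0 hyN H j₀ J hJ hJN hj₀ gr w hgr hw1 hwL M hM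
    (fun η S => x - D₀ < |∑ b ∈ g \ ex, Db μ t τ I s η b 0 (pos S)|) (ms_sum t τ I s _ _) (off_sum t τ I s _ J _ hJg)
  have h3 : P1 μ N y (fun η S => x - D₀ < |∑ b ∈ g \ ex, Db μ t τ I s η b 0 (pos S)|) ≤
      P1 μ N y (fun η S => x - 2 * D₀ < |∑ b ∈ g, Db μ t τ I s η b 0 (pos S)|) + P1 μ N y Bad := by
    refine (P1_mono' ?_).trans (P1_or _ _)
    intro η S hS hSy h4
    by_cases hb : Bad η S
    · exact Or.inr hb
    · left
      have h5 := hBad η S hS hSy hb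
      have h6 := abs_sub_abs_le_abs_sub (∑ b ∈ g \ ex, Db μ t τ I s η b 0 (pos S)) (-∑ b ∈ g ∩ ex, Db μ t τ I s η b 0 (pos S))
      rw [abs_neg, sub_neg_eq_add, ← hsplit] at h6
      have h7 : x - D₀ < |∑ b ∈ g \ ex, Db μ t τ I s η b 0 (pos S)| := h4
      show x - 2 * D₀ < |∑ b ∈ g, Db μ t τ I s η b 0 (pos S)|
      linarith
  calc _ ≤ _ := h1
    _ ≤ _ := by
      refine (add_le_add_left (h2.trans (add_le_add_left (mul_le_mul_right h3 _) _)) _).trans ?_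
      rw [add_assoc, add_comm (ENNReal.ofReal (Real.exp _)) (P1 μ N y Bad)]

end Pool.Agent.W_7d29a1_Z99
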